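import Pool.Agent.H15.FLX.Targets

/-!
Row SUB of flx_modules (MP_c62aed_lc): the number of the `k`-sets inside a small set.
-/

set_option autoImplicit false

namespace Pool.Agent.H19.FLX

open Finset

theorem desc_le (a n : ℕ) (h : a ≤ n) (k : ℕ) :
    a.descFactorial k * n ^ k ≤ n.descFactorial k * a ^ k := by
  induction k with
  | zero => simp
  | succ k ih =>
    rw [Nat.descFactorial_succ, Nat.descFactorial_succ, pow_succ, pow_succ]
    have h1 : (a - k) * n ≤ (n - k) * a := by
      rcases Nat.le_total a k with h2 | h2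
      · rw [Nat.sub_eq_zero_of_le h2, zero_mul]
        exact Nat.zero_le _
      · obtain ⟨b, rfl⟩ := Nat.exists_eq_add_of_le h2
        obtain ⟨c, rfl⟩ := Nat.exists_eq_add_of_le h
        have e1 : k + b - k = b := by omega
        have e2 : k + b + c - k = b + c := by omega
        rw [e1, e2]
        nlinarith
    calc (a - k) * a.descFactorial k * (n ^ k * n)
        = (a.descFactorial k * n ^ k) * ((a - k) * n) := by ring
      _ ≤ (n.descFactorial k * a ^ k) * ((n - k) * a) := Nat.mul_le_mul ih h1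
      _ = (n - k) * n.descFactorial k * (a ^ k * a) := by ring

theorem choose_le' (a n : ℕ) (h : a ≤ n) (k : ℕ) :
    a.choose k * n ^ k ≤ n.choose k * a ^ k := by
  have h1 := desc_le a n h k
  rw [Nat.descFactorial_eq_factorial_mul_choose, Nat.descFactorial_eq_factorial_mul_choose,
    mul_assoc, mul_assoc] at h1
  exact Nat.le_of_mul_le_mul_left h1 (Nat.factorial_pos k)

theorem pf_SUB : Pool.Agent.H15.FLX.T_SUB := by
  classical
  intro β n k A hβ hA
  have f : {B : {B : Finset (Fin n) // B.card = k} // B.1 ⊆ A} ≃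
      (powersetCard k A : Finset (Finset (Fin n))) :=
    { toFun := fun B => ⟨B.1.1, mem_powersetCard.2 ⟨B.2, B.1.2⟩⟩
      invFun := fun B => ⟨⟨B.1, (mem_powersetCard.1 B.2).2⟩, (mem_powersetCard.1 B.2).1⟩
      left_inv := fun _ => rfl
      right_inv := fun _ => rfl }
  have e1 : Nat.card {B : {B : Finset (Fin n) // B.card = k} // B.1 ⊆ A} = A.card.choose k := by
    rw [Nat.card_congr f, Nat.card_eq_fintype_card, Fintype.card_coe, card_powersetCard]
  have e2 : Nat.card {B : Finset (Fin n) // B.card = k} = n.choose k := by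
    rw [Nat.card_eq_fintype_card, Fintype.card_finset_len, Fintype.card_fin]
  rw [e1, e2]
  have hAn : A.card ≤ n := by
    have h := card_le_univ A
    rwa [Fintype.card_fin] at h
  have h1 := choose_le' A.card n hAn k
  have h2 : ((A.card.choose k : ℕ) : ℝ) * (n : ℝ) ^ k ≤ (n.choose k : ℕ) * (A.card : ℝ) ^ k := by
    exact_mod_cast h1
  rcases Nat.eq_zero_or_pos n with hn | hn
  · have hA0 : A.card = 0 := by omega
    rw [hA0, hn]
    rcases Nat.eq_zero_or_pos k with hk | hk
    · rw [hk]
      simp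
    · rw [Nat.choose_eq_zero_of_lt hk]
      simp
  · have hn0 : (0 : ℝ) < n := by exact_mod_cast hn
    have h3 : (A.card : ℝ) ^ k ≤ (β * n) ^ k := pow_le_pow_left₀ (Nat.cast_nonneg _) hA k
    have h4 : ((A.card.choose k : ℕ) : ℝ) * (n : ℝ) ^ k ≤
        (β ^ k * (n.choose k : ℕ)) * (n : ℝ) ^ k := by
      calc ((A.card.choose k : ℕ) : ℝ) * (n : ℝ) ^ k ≤ (n.choose k : ℕ) * (A.card : ℝ) ^ k := h2
        _ ≤ (n.choose k : ℕ) * (β * n) ^ k := mul_le_mul_of_nonneg_left h3 (Nat.cast_nonneg _)
        _ = _ := by rw [mul_pow]; ring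
    exact le_of_mul_le_mul_right h4 (pow_pos hn0 k)

end Pool.Agent.H19.FLX
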