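import Pool.Agent.H15.FLX.Targets
import Pool.Agent.H5.MSC.LF
import Pool.Agent.H1.MSC.HIT

/-!
Row LFX of flx_modules (MP_c62aed_lc): few signs are bad for a chain
(adapted from the row LF of helper5).
-/

set_option autoImplicit false

namespace Pool.Agent.H19.FLX

open Finset
open Pool.Agent.H53.MC (U Ins H1 InR Bad)
open Pool.Agent.H15.FLX
open Pool.Agent.H5.MSC (BADP step natCard_filter)

open Classical in
/-- the objects of a union are counted by a bound for each member -/
theorem cnt_le {α ι : Type} [Fintype α] (P : α → Prop) (C : Finset ι)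
    (Q : ι → α → Prop) (a b s : ℕ) (hC : C.card ≤ s)
    (hPQ : ∀ x, P x → ∃ c ∈ C, Q c x) (hQ : ∀ c ∈ C, Nat.card {x // Q c x} * a ≤ b) :
    Nat.card {x // P x} * a ≤ s * b := by
  rw [natCard_filter]
  have h1 : univ.filter P ⊆ C.biUnion fun c => univ.filter (Q c) := by
    intro x hx
    rw [mem_filter] at hx
    obtain ⟨c, hc, hq⟩ := hPQ x hx.2
    rw [mem_biUnion]
    exact ⟨c, hc, by rw [mem_filter]; exact ⟨mem_univ _, hq⟩⟩
  calc (univ.filter P).card * a ≤ (C.biUnion fun c => univ.filter (Q c)).card * a :=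
        Nat.mul_le_mul_right _ (card_le_card h1)
    _ ≤ (∑ c ∈ C, (univ.filter (Q c)).card) * a := Nat.mul_le_mul_right _ card_biUnion_le
    _ = ∑ c ∈ C, (univ.filter (Q c)).card * a := sum_mul _ _ _
    _ ≤ ∑ _c ∈ C, b := by
        refine sum_le_sum (fun c hc => ?_)
        rw [← natCard_filter]
        exact hQ c hc
    _ = C.card * b := by rw [sum_const, smul_eq_mul]
    _ ≤ s * b := Nat.mul_le_mul_right _ hC

open Classical in
/-- the claim -/
theorem claim (hRS : T_RS) {n M k μ : ℕ} (g : Fin M → Fin k → Fin n)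
    (hg : ∀ j, Function.Injective (g j)) (w s₀ : ℕ) (hH : H1 g w s₀)
    (𝒦 : Set (Set (Finset (Fin n) × (Fin n → Bool))))
    (hch : IsChain (· ⊆ ·) 𝒦) (hw : ∀ K ∈ 𝒦, ∀ p ∈ K, p.1.card < w) :
    ∀ (l : ℕ) (T : Finset (U M k)),
      Nat.card {σ : Signs n M μ // BADP g 𝒦 T l (FG g σ)} * (2 ^ k) ^ (T.card + l + 1) ≤
        s₀ ^ (l + 1) * (μ ^ (T.card + l + 1) * Nat.card (Signs n M μ)) := by
  have hHIT : Pool.Agent.H53.MC.T_HIT := Pool.Agent.H1.MSC.pf_HIT
  have hemp : ∀ (T : Finset (U M k)) (l a b : ℕ),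
      (∀ F : Fin (M * μ) → U M k, ¬ BADP g 𝒦 T l F) →
      Nat.card {σ : Signs n M μ // BADP g 𝒦 T l (FG g σ)} * a ≤ b := by
    intro T l a b h
    have : IsEmpty {σ : Signs n M μ // BADP g 𝒦 T l (FG g σ)} := ⟨fun F => h _ F.2⟩
    rw [Nat.card_of_isEmpty, zero_mul]
    exact Nat.zero_le _
  intro l
  induction l with
  | zero =>
    intro T
    rcases step g 𝒦 hch w hw T with h | ⟨p, hp, hpT, hhit⟩
    · exact hemp T 0 _ _ (fun F => h _ 0 F)
    · have hC : (univ.filter fun c : U M k => Ins g p c).card ≤ s₀ := by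
        rw [← natCard_filter]
        exact (hHIT g w s₀ hH p hp).1
      rw [zero_add, pow_one]
      refine cnt_le (fun σ : Signs n M μ => BADP g 𝒦 T 0 (FG g σ))
        (univ.filter fun c : U M k => Ins g p c)
        (fun c σ => c ∉ T ∧ InR (FG g σ) (insert c T)) _ _ s₀ hC ?_ ?_
      · intro σ hF
        obtain ⟨j, hj⟩ := hhit _ 0 _ hF
        refine ⟨FG g σ j, by rw [mem_filter]; exact ⟨mem_univ _, hj⟩, fun hc => hpT _ hc hj, ?_⟩
        intro c hc
        rcases mem_insert.1 hc with h1 | h1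
        · exact ⟨j, h1.symm⟩
        · exact hF.1 c h1
      · intro c _
        by_cases hcT : c ∈ T
        · have : IsEmpty {σ : Signs n M μ // c ∉ T ∧ InR (FG g σ) (insert c T)} :=
            ⟨fun F => F.2.1 hcT⟩
          rw [Nat.card_of_isEmpty, zero_mul]
          exact Nat.zero_le _
        · have hcard : (insert c T).card = T.card + 1 := card_insert_of_notMem hcT
          have h1 := hRS (μ := μ) g hg (insert c T)
          rw [hcard] at h1
          refine le_trans (Nat.mul_le_mul_right _ (Nat.card_mono (Set.toFinite _) ?_)) h1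
          intro F hF
          exact hF.2
  | succ l ih =>
    intro T
    rcases step g 𝒦 hch w hw T with h | ⟨p, hp, hpT, hhit⟩
    · exact hemp T (l + 1) _ _ (fun F => h _ (l + 1) F)
    · have hC : (univ.filter fun c : U M k => Ins g p c).card ≤ s₀ := by
        rw [← natCard_filter]
        exact (hHIT g w s₀ hH p hp).1
      have e1 : T.card + (l + 1) + 1 = T.card + 1 + l + 1 := by omega
      have hpow : s₀ ^ (l + 1 + 1) * (μ ^ (T.card + (l + 1) + 1) *
          Nat.card (Signs n M μ)) = s₀ * (s₀ ^ (l + 1) *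
          (μ ^ (T.card + 1 + l + 1) * Nat.card (Signs n M μ))) := by
        rw [e1, pow_succ s₀ (l + 1)]
        ring
      rw [hpow, e1]
      refine cnt_le (fun σ : Signs n M μ => BADP g 𝒦 T (l + 1) (FG g σ))
        (univ.filter fun c : U M k => Ins g p c)
        (fun c σ => c ∉ T ∧ BADP g 𝒦 (insert c T) l (FG g σ)) _ _ s₀ hC ?_ ?_
      · intro σ hF
        obtain ⟨j, hj⟩ := hhit _ (l + 1) _ hF
        have hnT : FG g σ j ∉ T := fun hc => hpT _ hc hj
        refine ⟨FG g σ j, by rw [mem_filter]; exact ⟨mem_univ _, hj⟩, hnT, ?_, ?_⟩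
        · intro c hc
          rcases mem_insert.1 hc with h1 | h1
          · exact ⟨j, h1.symm⟩
          · exact hF.1 c h1
        · obtain ⟨-, K, hK, hKh, hKb⟩ := hF
          refine ⟨K, hK, hKh, ?_⟩
          intro T2 hT2 hR2 hc2
          refine hKb T2 (subset_trans (subset_insert _ _) hT2) hR2 ?_
          rw [card_insert_of_notMem hnT] at hc2
          omega
      · intro c _
        by_cases hcT : c ∈ T
        · have : IsEmpty {σ : Signs n M μ // c ∉ T ∧ BADP g 𝒦 (insert c T) l (FG g σ)} :=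
            ⟨fun F => F.2.1 hcT⟩
          rw [Nat.card_of_isEmpty, zero_mul]
          exact Nat.zero_le _
        · have hcard : (insert c T).card = T.card + 1 := card_insert_of_notMem hcT
          have h1 := ih (insert c T)
          rw [hcard] at h1
          refine le_trans (Nat.mul_le_mul_right _ (Nat.card_mono (Set.toFinite _) ?_)) h1
          intro F hF
          exact hF.2

/-- LFX -/
theorem pf_LFX (hRS : T_RS) : T_LFX := by
  intro n k M μ g w s₀ q hg hH 𝒦 hch hw
  have h := claim hRS (μ := μ) g hg w s₀ hH 𝒦 hch hw q ∅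
  rw [card_empty, zero_add, ← mul_assoc, ← mul_pow] at h
  refine le_trans (Nat.mul_le_mul_right _ (Nat.card_mono (Set.toFinite _) ?_)) h
  intro F hF
  obtain ⟨K, hK, hKh, hKb⟩ := hF
  refine ⟨fun c hc => absurd hc (notMem_empty c), K, hK, hKh, ?_⟩
  intro T2 _ hR2 hc2
  refine hKb T2 hR2 ?_
  rw [card_empty, zero_add] at hc2
  exact hc2

end Pool.Agent.H19.FLX
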